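import Mathlib
import Pool.Agent.K9h36.LT.Main
import Pool.Agent.K9h36.LT.Grid

/-!
# 3SUM with real numbers: decision trees with linear tests

The input is a list of `n` real numbers, indexed by a finite set `I`; the question is whether three
numbers with different indices have the sum zero. The definitions are in
`Pool/Agent/K9h36/LT/Model.lean`:

* `wt x s`: the sum of the numbers with indices in `s`;
* `fam u y`: the list `x_i = ∑ p, u i p * y p`; a matrix `u` gives a linear family of lists, with
  parameters `y`; `zeros u`: the sets of three indices whose sum is zero for all lists of the family;
* `Shallow u f`: the function `f` of the list is locally constant near `fam u y` for a dense set of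
  parameters `y`. For example (part 3) the sign of any analytic function which does not vanish on the
  whole family, and the integer part of any analytic function which is not integral on the whole
  family: all comparisons between two numbers, all binary digits of the numbers, the signs of all
  sums of three numbers except those in `zeros u`, of all linear forms except those which vanish on
  the family;
* `Tree u`: decision trees; a node asks for the value of a shallow function (`free`), for the sign of
  the sum of three numbers (`tri`), or for the sign of an arbitrary polynomial of degree at most one
  in all numbers (`lin`). The trees may be infinite, but all branches are finite;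
* `run t x`: the answer; `tris t x`, `lins t x`: the numbers of nodes `tri` and `lin` on the path of
  the computation. Nodes `free` are not counted.

For every linear family the number of tests of sums of three numbers is exactly the number of the
sets in `zeros u` if there are no other linear tests, and every other linear test can replace at most
`5 D` of them, if every index is in at most `D` sets of `zeros u`. For the grid families (part 2;
the numbers are `α + ∑ i_l δ_l`, `β + ∑ j_l δ_l`, `- α - β - ∑ k_l δ_l`) with `n = (2 + 2 ^ d) m`
numbers, `m = L ^ d`, this gives `m ^ 2 ≤ T + 5 m q`.
This holds even for nondeterministic trees (a finite number of trees which are sound; every list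
without a triple of sum zero is to be accepted by one of them). Since `O (n log ^ 2 n)` linear
tests of six numbers are enough (Kane, Lovett and Moran), `5 m` is optimal up to logarithms.
-/

set_option autoImplicit false

namespace Pool.Agent.Results.MP_8f87b2_lc.LinearTests

open Pool.Agent.K9h36.LT

/-- 1. Let `u` be a linear family such that each index is in at most `D` sets of `zeros u`. Let
`t i`, `i` in a finite set, be decision trees none of which accepts a list of distinct numbers with
a triple of sum zero. Then there is a list of distinct numbers without a triple of sum zero such that
every tree which accepts it makes `T` tests of sums of three numbers and `q` other linear tests with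
`|zeros u| ≤ T + 5 D q`. And there is a decision tree with at most `|zeros u|` tests of sums of three
numbers and without other linear tests which accepts exactly the lists without a triple of sum zero.
2. The grid families: `(2 + 2 ^ d) L ^ d` numbers, `|zeros| = L ^ (2 d)`, each index is in at most
`L ^ d` sets.
3. Examples of shallow functions. -/
theorem result :
    (∀ (I P : Type) [Fintype I] [DecidableEq I] [Fintype P] (u : I → P → ℝ),
      Function.Injective u →
      (∀ D : ℕ, (∀ i, ((zeros u).filter fun s => i ∈ s).card ≤ D) →
        ∀ (ι : Type) [Finite ι] (t : ι → Tree u),
        (∀ i x, Function.Injective x → (t i).run x = true →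
          ∀ s : Finset I, s.card = 3 → wt x s ≠ 0) →
        ∃ x : I → ℝ, Function.Injective x ∧ (∀ s : Finset I, s.card = 3 → wt x s ≠ 0) ∧
          ∀ i, (t i).run x = true → (zeros u).card ≤ (t i).tris x + 5 * D * (t i).lins x) ∧
      ∃ t : Tree u, ∀ x : I → ℝ,
        (t.run x = true ↔ ∀ s : Finset I, s.card = 3 → wt x s ≠ 0) ∧
          t.tris x ≤ (zeros u).card ∧ t.lins x = 0) ∧
    (∀ d L : ℕ, Fintype.card (GI d L) = (2 + 2 ^ d) * L ^ d ∧ Function.Injective (grid d L) ∧
      (zeros (grid d L)).card = L ^ (2 * d) ∧
      ∀ i, ((zeros (grid d L)).filter fun s => i ∈ s).card ≤ L ^ d) ∧
    (∀ (I P : Type) [Fintype I] [Fintype P] (u : I → P → ℝ) (g : (I → ℝ) → ℝ),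
      AnalyticOnNhd ℝ g Set.univ →
      ((∃ y, g (fam u y) ≠ 0) → Shallow u fun x => ((SignType.sign (g x) : SignType) : ℤ)) ∧
      ((∃ y, ∀ m : ℤ, g (fam u y) ≠ m) → Shallow u fun x => ⌊g x⌋)) :=
  ⟨fun _ _ _ _ _ u hu => ⟨fun _ hD _ _ t ht => lower hu hD t ht, upper u⟩,
    fun _ _ => ⟨card_GI, grid_injective, card_zeros_grid, degree_grid⟩,
    fun _ _ _ _ _ _ hg => ⟨shallow_sign hg, shallow_floor hg⟩⟩

end Pool.Agent.Results.MP_8f87b2_lc.LinearTests
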