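import Mathlib
import Pool.Agent.K9h53.AF.Zero

/-!
# Integer 3SUM: circuits over formulas of bilinear maps over arbitrary rings, mixed in one formula

The input consists of `2 n` distinct integers of absolute value at most `(2 n) ^ 3` (`Valid`); is the sum of
three of them zero (`zeroSum`)? The items of the input are each of the first `n` numbers, and the list of the
last `n` numbers.

*Rings with tests* (`Dom N`, `N = (2 n) ^ c`): a commutative ring with at most `N` tests of its elements;
either it is an integral domain (any field, for example) and the tests ask whether an element is not zero,
or it is the field of the real numbers and the tests ask whether an element is positive, or it is a finite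
ring with at most `N` elements and the tests are arbitrary. An example of the last kind is the arithmetic of
the words of `v` bits, the ring of the integers modulo `2 ^ v`, with the comparisons with all constants or
with the bits of the word as tests.

*Formulas* (`Fml`). The wires carry vectors of dimension `d` over such rings. The leaves are vectors, or
matrices which are applied to a vector (`act`), which depend in an arbitrary way on one item, or on `w` words
of length `c log₂ (2 n)`, each of which is an arbitrary function of one item. The gates are sums and
arbitrary bilinear maps of two vectors over the same ring (`bil`), gates `test` whose value is one of two
arbitrary vectors over any ring, according to the result of a test of a linear form of a vector over any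
other ring, and gates `sym` of any fan-in whose value is an arbitrary function of the number of positive
results of tests of linear forms of vectors over arbitrary rings. So a formula may mix modular arithmetic
for different moduli, real arithmetic with comparisons, and arithmetic in all fields.

*Circuits* (`Circuit`) compute shared bits; each bit is the result of a branching program whose nodes test
formulas, and the leaves may also read the bits computed before. A leaf which reads an item pays
its price: one for each of the first `n` numbers, nothing for the list of the last `n` numbers, and for
a shared bit the number of those of the first `n` numbers on which the bit depends. The cost is the sum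
of the prices of all leaves, plus the number of inner nodes of the branching programs, plus the number
of wires which lead to gates `sym`. All other gates and constants are free.

We show that random circuits with error probability at most `1 / 3` have cost
`s ≥ n ^ 2 / (12000 c (w + d ^ 2))`.

Proof. Each of the first `n` numbers can ask for about `n log₂ n / 7` bits which are encoded in the list of
the last `n` numbers (starting file `Pool.Agent.Y638.RF.ZeroSum`). We count the functions of this number which
arise when the other items are fixed. If `r` leaves see it or bits which depend on it, there are `O (r)`
places at which other parts enter, and the function of the vector at such a place is an affine map or a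
function of the result of a test of an affine form, so it is given by `O (d ^ 2)` parameters; the number of
patterns of the results is bounded by the theorem of Rónyai, Babai and Ganapathy for integral domains, by
Warren's theorem for the real numbers, and by the number of the parameters for small rings. The frame of the
proof is that of the starting files `Pool.Agent.N452.TF` (the real numbers only).
-/

set_option autoImplicit false

namespace Pool.Agent.Results.MP_8f87b2_lc.MixedRingCircuits

open Pool.Agent.TH697.Form (IsProb)
open Pool.Agent.TH697.Row (ApproximatesOn)
open Pool.Agent.TH697.Form.ThreeSum (Item Valid)
open Pool.Agent.TH457.Ary.ZeroSum (zeroSum)
open Pool.Agent.K9h53.AF (Circuit)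
open Pool.Agent.N452.TF.Xor (pairs)

theorem result : ∀ n c w d : ℕ, 1000 ≤ n → 1 ≤ c → 1 ≤ w → 1 ≤ d →
    ∀ (Ω : Type) [Fintype Ω] (μ : Ω → ℝ), IsProb μ →
      ∀ (s : ℕ) (C : Ω → Circuit ((2 * n) ^ c) (Option (Fin n)) (Item n n) w ((2 * n) ^ c) d),
        (∀ ω, (C ω).circ.cost (pairs n) ≤ s) →
        ApproximatesOn μ (fun ω => (C ω).eval) (Valid n n) (zeroSum n) →
        (n : ℝ) ^ 2 ≤ 12000 * c * (w + (d : ℝ) ^ 2) * s :=
  fun _ _ _ _ hn hc hw hd _ _ μ hμ s C hs hC =>
    Pool.Agent.K9h53.AF.zero_sum hn hc hw hd μ hμ s C hs hC

end Pool.Agent.Results.MP_8f87b2_lc.MixedRingCircuits
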