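import Mathlib
import Pool.Agent.K9h76.WZ.Main
import Pool.Agent.K9h76.WZ.Upper

/-!
# Integer 3SUM on ideal parallel machines

The input is a list of `n` distinct integers in `[-n ^ 4, n ^ 4]`, even sorted (`ZInst`); the
question is whether there are three distinct indices `i, j, k` with `x i + x j + x k = 0`
(`ZYes`). A machine (`Pool.Agent.W964.Wd.Machine`) has `P` processors with arbitrary local programs
and a shared memory with concurrent reading, searching and (priority) writing; the contents of the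
cells and the states are arbitrary, and cell `j` contains the whole number `x j` at the beginning.

Within time `T = o (log n / log log n)` a machine with at most `n ^ (2 - ε)` processors has
essentially the same result on a random list without a solution and on the list with a planted
solution, and a randomized machine has for some list a probability of success of at most
`1 / 2 + n ^ (-ε / 3)`. On the other hand `n ^ 2` processors decide the question in three steps.

The proof applies the theorem on planted tuples for block inputs of the starting library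
(`Pool.Agent.W964.Wd.tuple2`) to lists in which the `n - 2 ⌊n / 4⌋` smallest numbers are negative
and the others are positive: `x j = ±(c_j + Z_j)` with fixed `c_j` and independent random offsets
`Z_j < n ^ 2`; a planted solution consists of two positive numbers and a negative one.
-/

namespace Pool.Agent.Results.MP_8f87b2_lc.ParallelMachines

open Pool.Agent.W964.Wd Pool.Agent.K9h76.WZ Finset

open Classical in
theorem result (ε : ℝ) (hε : 0 < ε) (hε1 : ε ≤ 1) (K : ℕ) :
    (∃ δ : ℝ, 0 < δ ∧ ∃ n₀ : ℕ, ∀ n : ℕ, n₀ ≤ n →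
      ∃ (Ξ : Type) (_ : Fintype Ξ) (μ : Ξ → ℝ) (x x' : Ξ → Fin n → ℤ),
        (∀ ξ, 0 ≤ μ ξ) ∧ ∑ ξ, μ ξ = 1 ∧
        (∀ ξ, μ ξ ≠ 0 → ZInst n (x ξ) ∧ ¬ ZYes (x ξ) ∧ ZInst n (x' ξ) ∧ ZYes (x' ξ)) ∧
        ∀ T P : ℕ, 1 ≤ T → T * Real.log (Real.log n) ≤ δ * Real.log n →
          (P : ℝ) ≤ (n : ℝ) ^ (2 - ε) →
          (∀ M : Machine ℤ (Fin n) P, M.Lists (n ^ K) →
            ∑ ξ, μ ξ * (if M.result T (x ξ) ≠ M.result T (x' ξ) then (1 : ℝ) else 0) ≤
              (n : ℝ) ^ (-(ε / 3))) ∧
          (∀ R : RandMachine ℤ (Fin n) P, R.Lists (n ^ K) →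
            ∃ z : Fin n → ℤ, ZInst n z ∧
              R.success T z (ZYes z) ≤ 1 / 2 + (n : ℝ) ^ (-(ε / 3)))) ∧
    (∀ n : ℕ, ∃ M : Machine ℤ (Fin n) (n * n), M.Lists 1 ∧
      ∀ T : ℕ, 3 ≤ T → ∀ x : Fin n → ℤ, StrictMono x → (M.answer T x = true ↔ ZYes x)) := by
  constructor
  · obtain ⟨δ, hδ, n₀, h⟩ := zsum_core ε hε hε1 K
    refine ⟨δ, hδ, n₀, fun n hn => ?_⟩
    obtain ⟨Ξ, fΞ, μ, x, x', h0, h1, h2, h3⟩ := h n hn
    refine ⟨Ξ, fΞ, μ, x, x', h0, h1, h2, fun T P hT hTn hP => ⟨fun M hM => ?_, fun R hR => ?_⟩⟩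
    · exact h3 T P hT hTn hP M hM
    · exact rand_pairs R T μ h0 h1 x x' (ZInst n) ZYes h2 (by positivity)
        (fun ω => h3 T P hT hTn hP (R.mach ω) (hR ω))
  · intro n
    exact ⟨zMach n, zMach_lists n, fun T hT x hx => zMach_correct x hx T hT⟩

end Pool.Agent.Results.MP_8f87b2_lc.ParallelMachines
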