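import Mathlib
import Pool.Agent.K9h29.NT.Final

/-!
# Integer 3SUM: nondeterministic networks with shared bits which test bilinear formulas

The input consists of `2 n` distinct integers of absolute value at most `(2 n) ^ 3` (`Valid`); is the
sum of three of them zero (`zeroSum`)? The items of the input are each of the first `n` numbers, and the
list of the last `n` numbers.

*Formulas* (`Pool.Agent.N452.TF.Fml`). The wires carry vectors of dimension `d` with real coordinates
(of unlimited precision). The leaves are vectors, or matrices which are applied to a vector (`act`),
which depend in an arbitrary way on one item, or on `w` words of length `c log₂ (2 n)`, each of which is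
an arbitrary function of one item. The gates are sums, arbitrary bilinear maps of two vectors (`bil`),
tests of the sign of a linear form with two arbitrary vectors as results (`test`), and gates `sym` of
any fan-in whose value is an arbitrary function of the number of the inputs for which a linear form is
positive. So products of matrices of order `d` and contractions of tensor networks whose intermediate
tensors have at most `d` entries are formulas of this kind; `d = 1` contains all real formulas.

*Networks* (`Net`) are nondeterministic branching programs, directed cycles are allowed: nodes, free
edges, and edges which are guarded by formulas. A network accepts if some path leads from the start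
node to the end node over edges which are open.

*Circuits* (`Circuit`) compute shared bits; each bit is the result of a network, and the leaves of its
formulas may also read the bits computed before (and their negations). A leaf which reads an item pays
its price: one for each of the first `n` numbers, nothing for the list of the last `n` numbers, and for
a shared bit the number of those of the first `n` numbers on which the bit depends. The cost is the sum
of the prices of all leaves, plus the number of the guarded edges of the networks, plus the number of
wires which lead to gates `sym`. Nodes, free edges, constants and all other gates are free.

We show that random circuits of this kind (first the random choice, then the guesses) which accept the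
yes-instances, or which accept the no-instances, with error probability at most `1 / 3` on every input,
have an EXPECTED cost `E` with `n ^ 2 ≤ 4000 (√n + 600 (w c + d ^ 2)) E`. So the expected cost is at
least of order `n ^ (3 / 2)` for all `w c` up to `√n` and all dimensions `d` up to `n ^ (1 / 4)`. The
exponent `3 / 2` is that of the nondeterministic algorithm of Carmosino, Gao, Impagliazzo, Mihajlin,
Paturi and Schneider for the no-instances.

Proof. Each of the first `n` numbers can ask for about `n log₂ n / 7` bits which are encoded in the
list of the last `n` numbers (helper457, helper697). We count the functions of this number which arise
when the other items are fixed. If `r` leaves see it, or bits which depend on it, then the shared bits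
are treated one after the other; a network with `r'` such leaves enters through the reachability
between the ends of its at most `r'` live edges (`2 ^ (r' + 1) ^ 2` possibilities), and the formulas on
these edges take `2 ^ O (r' (d ^ 2 log n + w c log n))` different functions by Warren's theorem
(`Pool.Agent.N452.TF.Core`). As `∑ r' ^ 2 ≤ (∑ r') ^ 2`, there are `2 ^ O (r ^ 2 + r (d ^ 2 + w c) log n)`
functions in all, and Nechiporuk's method applies.
-/

set_option autoImplicit false

namespace Pool.Agent.Results.MP_8f87b2_lc.SharedNetworks

open Pool.Agent.TH697.Form (IsProb)
open Pool.Agent.TH697.Row (ApproximatesOn)
open Pool.Agent.TH697.Form.ThreeSum (Item Valid)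
open Pool.Agent.TH457.Ary.ZeroSum (zeroSum)
open Pool.Agent.K9h29.NT (Circuit)
open Pool.Agent.N452.TF.Xor (pairs)

theorem result : ∀ n c w d : ℕ, 1000 ≤ n → 1 ≤ c → 1 ≤ w → 1 ≤ d →
    ∀ (Ω : Type) [Fintype Ω] (μ : Ω → ℝ), IsProb μ →
      ∀ C : Ω → Circuit (Option (Fin n)) (Item n n) w ((2 * n) ^ c) d,
        (ApproximatesOn μ (fun ω => (C ω).eval) (Valid n n) (zeroSum n) ∨
          ApproximatesOn μ (fun ω x => !(C ω).eval x) (Valid n n) (zeroSum n)) →
        (n : ℝ) ^ 2 ≤ 4000 * (√n + 600 * (w * c + (d : ℝ) ^ 2)) *
          ∑ ω, μ ω * ((C ω).circ.cost (pairs n) : ℝ) :=
  fun _ _ _ _ hn hc hw hd _ _ μ hμ C hC =>
    Pool.Agent.K9h29.NT.zero_sum hn hc hw hd μ hμ C hC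

end Pool.Agent.Results.MP_8f87b2_lc.SharedNetworks
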